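import Mathlib

/-!
# From central states on `B(H)` to sums of vector functionals which nearly commute

`ψ` is a state on `B(H)` which commutes with the operators `b i`. Then `ψ` is a limit, on finitely
many operators, of sums of vector functionals `ω` such that the functionals `x ↦ ω (x b i - b i x)`
have small norm (Day's trick: one application of the Hahn-Banach theorem in a finite power of the
dual space of `B(H)`).
-/

set_option autoImplicit false

namespace Pool.Agent.N83.QW

open Filter Topology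
open scoped InnerProductSpace ComplexOrder

variable {H : Type*} [NormedAddCommGroup H] [InnerProductSpace ℂ H]

/-- The vector functional `x ↦ ⟪v, x w⟫`. -/
noncomputable def vf (v w : H) : StrongDual ℂ (H →L[ℂ] H) :=
  (innerSL ℂ v).comp (ContinuousLinearMap.apply ℂ H w)

lemma vf_apply (v w : H) (x : H →L[ℂ] H) : vf v w x = ⟪v, x w⟫_ℂ := rfl

lemma norm_vf_le (v w : H) : ‖vf v w‖ ≤ ‖v‖ * ‖w‖ := by
  refine ContinuousLinearMap.opNorm_le_bound _ (by positivity) fun x => ?_
  rw [vf_apply]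
  calc ‖⟪v, x w⟫_ℂ‖ ≤ ‖v‖ * ‖x w‖ := norm_inner_le_norm _ _
    _ ≤ ‖v‖ * (‖x‖ * ‖w‖) := by gcongr; exact x.le_opNorm w
    _ = ‖v‖ * ‖w‖ * ‖x‖ := by ring

/-- The sum of the vector functionals of the list `l`. -/
noncomputable def om (l : List H) : StrongDual ℂ (H →L[ℂ] H) := (l.map fun v => vf v v).sum

lemma om_nil : om ([] : List H) = 0 := rfl

lemma om_cons (v : H) (l : List H) : om (v :: l) = vf v v + om l := by simp [om]

lemma om_append (l l' : List H) : om (l ++ l') = om l + om l' := by simp [om]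

/-- The mass of a list. -/
noncomputable def mass (l : List H) : ℝ := (l.map fun v => ‖v‖ ^ 2).sum

lemma mass_cons (v : H) (l : List H) : mass (v :: l) = ‖v‖ ^ 2 + mass l := by simp [mass]

lemma mass_append (l l' : List H) : mass (l ++ l') = mass l + mass l' := by simp [mass]

variable [CompleteSpace H]

/-- The commutator functional `y ↦ ω (y b) - ω (b y)`. -/
noncomputable def cm (b : H →L[ℂ] H) (l : List H) : StrongDual ℂ (H →L[ℂ] H) :=
  (l.map fun v => vf v (b v) - vf (b.adjoint v) v).sum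

lemma cm_cons (b : H →L[ℂ] H) (v : H) (l : List H) :
    cm b (v :: l) = (vf v (b v) - vf (b.adjoint v) v) + cm b l := by simp [cm]

lemma cm_append (b : H →L[ℂ] H) (l l' : List H) : cm b (l ++ l') = cm b l + cm b l' := by
  simp [cm]

lemma cm_apply (b : H →L[ℂ] H) (l : List H) (y : H →L[ℂ] H) :
    cm b l y = om l (y * b) - om l (b * y) := by
  induction l with
  | nil => simp [cm, om]
  | cons v l ih =>
    rw [cm_cons, om_cons, add_apply, ih, add_apply,
      add_apply, sub_apply, vf_apply, vf_apply, vf_apply,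
      vf_apply, ContinuousLinearMap.adjoint_inner_left]
    have h1 : (y * b) v = y (b v) := rfl
    have h2 : (b * y) v = b (y v) := rfl
    rw [h1, h2]
    ring

/-- Multiply all vectors of a list with the root of `t`. -/
noncomputable def scl (t : ℝ) (l : List H) : List H := l.map fun v => ((Real.sqrt t : ℝ) : ℂ) • v

omit [CompleteSpace H] in
lemma vf_smul (t : ℝ) (ht : 0 ≤ t) (v w : H) :
    vf (((Real.sqrt t : ℝ) : ℂ) • v) (((Real.sqrt t : ℝ) : ℂ) • w) = t • vf v w := by
  ext x
  rw [vf_apply, map_smul, inner_smul_left, inner_smul_right, smul_apply,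
    vf_apply, Complex.conj_ofReal, ← mul_assoc, ← Complex.ofReal_mul, Real.mul_self_sqrt ht]
  simp

omit [CompleteSpace H] in
lemma om_scl (t : ℝ) (ht : 0 ≤ t) (l : List H) : om (scl t l) = t • om l := by
  induction l with
  | nil => exact (smul_zero (M := ℝ) (A := StrongDual ℂ (H →L[ℂ] H)) t).symm
  | cons v l ih =>
    have : scl t (v :: l) = (((Real.sqrt t : ℝ) : ℂ) • v) :: scl t l := rfl
    rw [this, om_cons, ih, vf_smul t ht, om_cons, smul_add]

omit [CompleteSpace H] in
lemma mass_scl (t : ℝ) (ht : 0 ≤ t) (l : List H) : mass (scl t l) = t * mass l := by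
  induction l with
  | nil => simp [mass, scl]
  | cons v l ih =>
    have : scl t (v :: l) = (((Real.sqrt t : ℝ) : ℂ) • v) :: scl t l := rfl
    rw [this, mass_cons, ih, mass_cons, norm_smul, Complex.norm_real, Real.norm_eq_abs, mul_pow,
      sq_abs, Real.sq_sqrt ht]
    ring

lemma cm_scl (b : H →L[ℂ] H) (t : ℝ) (ht : 0 ≤ t) (l : List H) : cm b (scl t l) = t • cm b l := by
  induction l with
  | nil => exact (smul_zero (M := ℝ) (A := StrongDual ℂ (H →L[ℂ] H)) t).symm
  | cons v l ih =>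
    have : scl t (v :: l) = (((Real.sqrt t : ℝ) : ℂ) • v) :: scl t l := rfl
    rw [this, cm_cons, ih, cm_cons, map_smul, map_smul, vf_smul t ht, vf_smul t ht, smul_add,
      smul_sub]

/-- A bounded functional on the vector functionals is given by an operator. -/
lemma exists_op (f : StrongDual ℂ (H →L[ℂ] H) →L[ℂ] ℂ) :
    ∃ z : H →L[ℂ] H, ∀ v w : H, f (vf v w) = ⟪v, z w⟫_ℂ := by
  let F0 : H →ₗ⋆[ℂ] H →ₗ[ℂ] ℂ := LinearMap.mk₂'ₛₗ (starRingEnd ℂ) (RingHom.id ℂ)
    (fun v w => f (vf v w))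
    (by
      intro v v' w
      rw [← map_add]
      congr 1
      ext x
      rw [vf_apply, add_apply, vf_apply, vf_apply, inner_add_left])
    (by
      intro c v w
      rw [← map_smul]
      congr 1
      ext x
      rw [vf_apply, smul_apply, vf_apply, inner_smul_left]
      rfl)
    (by
      intro v w w'
      rw [← map_add]
      congr 1
      ext x
      rw [vf_apply, add_apply, vf_apply, vf_apply, map_add, inner_add_right])
    (by
      intro c v w
      rw [RingHom.id_apply, ← map_smul]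
      congr 1
      ext x
      rw [vf_apply, smul_apply, vf_apply, map_smul, inner_smul_right]
      rfl)
  let F : H →L⋆[ℂ] H →L[ℂ] ℂ := F0.mkContinuous₂ ‖f‖ (by
    intro v w
    calc ‖f (vf v w)‖ ≤ ‖f‖ * ‖vf v w‖ := f.le_opNorm _
      _ ≤ ‖f‖ * (‖v‖ * ‖w‖) := by gcongr; exact norm_vf_le v w
      _ = ‖f‖ * ‖v‖ * ‖w‖ := by ring)
  refine ⟨(InnerProductSpace.continuousLinearMapOfBilin F).adjoint, fun v w => ?_⟩
  rw [ContinuousLinearMap.adjoint_inner_right,
    InnerProductSpace.continuousLinearMapOfBilin_apply]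
  rfl

lemma om_add_apply (l : List H) (y : H →L[ℂ] H) (h : ∀ v : H, 0 ≤ (⟪v, y v⟫_ℂ).re) :
    0 ≤ (om l y).re := by
  induction l with
  | nil => simp [om]
  | cons v l ih =>
    rw [om_cons, add_apply, vf_apply, Complex.add_re]
    exact add_nonneg (h v) ih

lemma conj_of_pos (ψ : (H →L[ℂ] H) →ₗ[ℂ] ℂ) (hpos : ∀ x, 0 ≤ ψ (star x * x))
    (a : H →L[ℂ] H) (ha : star a = a) : (ψ a).im = 0 := by
  have h : a = (1 / 4 : ℂ) • (star (a + 1) * (a + 1)) - (1 / 4 : ℂ) • (star (a - 1) * (a - 1)) := by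
    rw [star_add, star_sub, ha, star_one]
    have e : (a + 1) * (a + 1) - (a - 1) * (a - 1) = (4 : ℂ) • a := by
      have : (4 : ℂ) • a = a + a + a + a := by
        rw [show (4 : ℂ) = 1 + 1 + 1 + 1 by norm_num, add_smul, add_smul, add_smul, one_smul]
      rw [this]
      noncomm_ring
    rw [← smul_sub, e, smul_smul]
    norm_num
  have h1 := Complex.nonneg_iff.1 (hpos (a + 1))
  have h2 := Complex.nonneg_iff.1 (hpos (a - 1))
  rw [h, map_sub, map_smul, map_smul, Complex.sub_im, smul_eq_mul, smul_eq_mul, Complex.mul_im,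
    Complex.mul_im, ← h1.2, ← h2.2]
  norm_num

lemma re_star (ψ : (H →L[ℂ] H) →ₗ[ℂ] ℂ) (hpos : ∀ x, 0 ≤ ψ (star x * x))
    (a : H →L[ℂ] H) : (ψ (star a)).re = (ψ a).re := by
  have h := conj_of_pos ψ hpos (Complex.I • (a - star a)) (by
    rw [star_smul, star_sub, star_star, Complex.star_def, Complex.conj_I]
    rw [neg_smul, ← smul_neg, neg_sub])
  rw [map_smul, map_sub, smul_eq_mul, Complex.mul_im, Complex.I_re, Complex.I_im,
    Complex.sub_re] at h
  linarith

/-- A positive unital functional respects lower bounds of the numerical range. -/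
lemma re_ge (ψ : (H →L[ℂ] H) →ₗ[ℂ] ℂ) (h1 : ψ 1 = 1) (hpos : ∀ x, 0 ≤ ψ (star x * x))
    (X : H →L[ℂ] H) (u : ℝ) (h : ∀ v : H, u * ‖v‖ ^ 2 ≤ (⟪v, X v⟫_ℂ).re) : u ≤ (ψ X).re := by
  let Y : H →L[ℂ] H := (X + star X) - ((2 * u : ℝ) : ℂ) • 1
  have hY : Y.IsPositive := by
    rw [ContinuousLinearMap.isPositive_iff_complex]
    intro v
    have e : ⟪Y v, v⟫_ℂ = (((⟪X v, v⟫_ℂ).re * 2 - 2 * u * ‖v‖ ^ 2 : ℝ) : ℂ) := by
      have e1 : Y v = X v + (star X) v - ((2 * u : ℝ) : ℂ) • v := rfl
      rw [e1, inner_sub_left, inner_add_left, inner_smul_left, Complex.conj_ofReal,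
        ContinuousLinearMap.star_eq_adjoint, ContinuousLinearMap.adjoint_inner_left,
        inner_self_eq_norm_sq_to_K, ← inner_conj_symm v (X v)]
      have e2 : ∀ z : ℂ, z + (starRingEnd ℂ) z = ((z.re * 2 : ℝ) : ℂ) := by
        intro z
        rw [Complex.add_conj]
        push_cast
        ring
      rw [e2]
      push_cast
      rfl
    rw [e]
    refine ⟨by simp only [RCLike.re_to_complex, Complex.ofReal_re], ?_⟩
    have h2 := h v
    rw [← inner_conj_symm, Complex.conj_re] at h2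
    simp only [RCLike.re_to_complex, Complex.ofReal_re]
    linarith
  have h3 : (0 : H →L[ℂ] H) ≤ Y := (ContinuousLinearMap.nonneg_iff_isPositive Y).2 hY
  obtain ⟨r, hr⟩ := CStarAlgebra.nonneg_iff_eq_star_mul_self.1 h3
  have h4 := Complex.nonneg_iff.1 (hpos r)
  rw [← hr] at h4
  have h5 : (ψ Y).re = (ψ X).re + (ψ X).re - 2 * u := by
    show (ψ ((X + star X) - ((2 * u : ℝ) : ℂ) • 1)).re = _
    rw [map_sub, map_add, map_smul, h1, Complex.sub_re, Complex.add_re, re_star ψ hpos]
    simp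
  have h6 := h4.1
  rw [h5] at h6
  linarith

omit [CompleteSpace H] in
/-- Decomposition of a functional on a finite product. -/
lemma dec_fun {ι κ V : Type*} [Fintype ι] [Fintype κ] [DecidableEq ι] [DecidableEq κ]
    [NormedAddCommGroup V] [NormedSpace ℂ V] (f : ((ι → V) × (κ → ℂ)) →L[ℂ] ℂ)
    (p : ι → V) (q : κ → ℂ) :
    f (p, q) = ∑ i, f (Pi.single i (p i), 0) + ∑ j, f (0, Pi.single j 1) * q j := by
  have e1 : (p, q) = ∑ i, ((Pi.single i (p i) : ι → V), (0 : κ → ℂ)) +
      ∑ j, q j • ((0 : ι → V), (Pi.single j 1 : κ → ℂ)) := by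
    refine Prod.ext ?_ ?_
    · rw [Prod.fst_add, Prod.fst_sum, Prod.fst_sum]
      simp only [Prod.smul_fst, smul_zero, Finset.sum_const_zero, add_zero]
      exact (Finset.univ_sum_single p).symm
    · rw [Prod.snd_add, Prod.snd_sum, Prod.snd_sum]
      simp only [Prod.smul_snd, Finset.sum_const_zero, zero_add]
      rw [← Finset.univ_sum_single q]
      refine Finset.sum_congr rfl fun j _ => ?_
      rw [Finset.univ_sum_single q, ← Pi.single_smul, smul_eq_mul, mul_one]
  conv_lhs => rw [e1, map_add, map_sum, map_sum]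
  congr 1
  refine Finset.sum_congr rfl fun j _ => ?_
  rw [map_smul, smul_eq_mul, mul_comm]

omit [CompleteSpace H] in
lemma hb_sep {ι κ V : Type*} [Fintype ι] [Fintype κ] [NormedAddCommGroup V] [NormedSpace ℝ V]
    [NormedSpace ℂ V] [IsScalarTower ℝ ℂ V] (D : Set ((ι → V) × (κ → ℂ))) (hD : Convex ℝ D)
    (pt : (ι → V) × (κ → ℂ)) (hpt : pt ∉ closure D) :
    ∃ (f : ((ι → V) × (κ → ℂ)) →L[ℂ] ℂ) (u : ℝ), (f pt).re < u ∧ ∀ p ∈ D, u < (f p).re := by
  obtain ⟨f, u, hf1, hf2⟩ := RCLike.geometric_hahn_banach_point_closed (𝕜 := ℂ)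
    hD.closure isClosed_closure hpt
  exact ⟨f, u, hf1, fun p hp => hf2 p (subset_closure hp)⟩

/-- **Day's trick.** -/
theorem day {ι κ : Type*} [Fintype ι] [Fintype κ] (ψ : (H →L[ℂ] H) →ₗ[ℂ] ℂ) (h1 : ψ 1 = 1)
    (hpos : ∀ x, 0 ≤ ψ (star x * x)) (b : ι → H →L[ℂ] H) (hc : ∀ i x, ψ (b i * x) = ψ (x * b i))
    (x : κ → H →L[ℂ] H) (ε : ℝ) (hε : 0 < ε) :
    ∃ l : List H, mass l = 1 ∧ (∀ i, ‖cm (b i) l‖ ≤ ε) ∧ ∀ j, ‖om l (x j) - ψ (x j)‖ ≤ ε := by
  classical
  let pr : List H → (ι → StrongDual ℂ (H →L[ℂ] H)) × (κ → ℂ) := fun l =>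
    (fun i => cm (b i) l, fun j => om l (x j))
  let D : Set ((ι → StrongDual ℂ (H →L[ℂ] H)) × (κ → ℂ)) := {p | ∃ l, mass l = 1 ∧ p = pr l}
  let pt : (ι → StrongDual ℂ (H →L[ℂ] H)) × (κ → ℂ) := (0, fun j => ψ (x j))
  have hconv : Convex ℝ D := by
    rintro _ ⟨l, hl, rfl⟩ _ ⟨l', hl', rfl⟩ s t hs ht hst
    refine ⟨scl s l ++ scl t l', ?_, ?_⟩
    · rw [mass_append, mass_scl s hs, mass_scl t ht, hl, hl']
      linarith
    · refine Prod.ext ?_ ?_
      · funext i
        show s • cm (b i) l + t • cm (b i) l' = cm (b i) _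
        rw [cm_append, cm_scl _ s hs, cm_scl _ t ht]
      · funext j
        show s • om l (x j) + t • om l' (x j) = om _ (x j)
        rw [om_append, om_scl s hs, om_scl t ht]
        rfl
  by_cases hpt : pt ∈ closure D
  · obtain ⟨p, ⟨l, hl, rfl⟩, hd⟩ := Metric.mem_closure_iff.1 hpt ε hε
    rw [dist_eq_norm] at hd
    refine ⟨l, hl, fun i => ?_, fun j => ?_⟩
    · have h2 : ‖(pt - pr l).1 i‖ ≤ ‖pt - pr l‖ :=
        (norm_le_pi_norm (pt - pr l).1 i).trans (norm_fst_le _)
      have h3 : (pt - pr l).1 i = -cm (b i) l := by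
        show (0 : ι → StrongDual ℂ (H →L[ℂ] H)) i - cm (b i) l = _
        rw [Pi.zero_apply, zero_sub]
      rw [h3, norm_neg] at h2
      exact h2.trans hd.le
    · have h2 : ‖(pt - pr l).2 j‖ ≤ ‖pt - pr l‖ :=
        (norm_le_pi_norm (pt - pr l).2 j).trans (norm_snd_le _)
      have h3 : (pt - pr l).2 j = ψ (x j) - om l (x j) := rfl
      rw [h3, norm_sub_rev] at h2
      exact h2.trans hd.le
  · exfalso
    obtain ⟨f, u, hf1, hf2⟩ := hb_sep D hconv pt hpt
    let fi : ι → (StrongDual ℂ (H →L[ℂ] H) →L[ℂ] ℂ) := fun i =>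
      f.comp ((ContinuousLinearMap.inl ℂ (ι → StrongDual ℂ (H →L[ℂ] H)) (κ → ℂ)).comp
        (ContinuousLinearMap.single ℂ (fun _ : ι => StrongDual ℂ (H →L[ℂ] H)) i))
    choose z hz using fun i => exists_op (fi i)
    let lam : κ → ℂ := fun j => f (0, Pi.single j 1)
    let X : H →L[ℂ] H := ∑ i, (z i * b i - b i * z i) + ∑ j, lam j • x j
    have hdec : ∀ (p : ι → StrongDual ℂ (H →L[ℂ] H)) (q : κ → ℂ),
        f (p, q) = ∑ i, fi i (p i) + ∑ j, lam j * q j := fun p q => dec_fun f p q
    have hfi : ∀ i l, fi i (cm (b i) l) = om l (z i * b i - b i * z i) := by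
      intro i l
      induction l with
      | nil => simp [cm, om]
      | cons v l ih =>
        rw [cm_cons, om_cons, map_add, ih, add_apply, map_sub, hz, hz, vf_apply,
          ContinuousLinearMap.adjoint_inner_left]
        congr 1
        have e3 : (z i * b i - b i * z i) v = z i (b i v) - b i (z i v) := rfl
        rw [e3, inner_sub_right]
    have hkey : ∀ l, f (pr l) = om l X := by
      intro l
      rw [hdec, map_add, map_sum, map_sum]
      congr 1
      · exact Finset.sum_congr rfl fun i _ => hfi i l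
      · refine Finset.sum_congr rfl fun j _ => ?_
        rw [map_smul, smul_eq_mul]
    have hX : ∀ v : H, u * ‖v‖ ^ 2 ≤ (⟪v, X v⟫_ℂ).re := by
      intro v
      by_cases hv : v = 0
      · rw [hv]; simp
      · have hv0 : 0 < ‖v‖ := norm_pos_iff.2 hv
        let w : H := ((‖v‖⁻¹ : ℝ) : ℂ) • v
        have hw : mass [w] = 1 := by
          rw [mass_cons]
          show ‖w‖ ^ 2 + 0 = 1
          rw [norm_smul, Complex.norm_real, Real.norm_eq_abs, abs_of_pos (by positivity),
            inv_mul_cancel₀ hv0.ne']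
          norm_num
        have h2 := hf2 (pr [w]) ⟨[w], hw, rfl⟩
        rw [hkey] at h2
        have e2 : om [w] X = (((‖v‖⁻¹) ^ 2 : ℝ) : ℂ) * ⟪v, X v⟫_ℂ := by
          rw [om_cons, om_nil, add_zero, vf_apply, map_smul, inner_smul_left, inner_smul_right,
            Complex.conj_ofReal]
          push_cast
          ring
        rw [e2, Complex.re_ofReal_mul] at h2
        rw [inv_pow, inv_mul_eq_div, lt_div_iff₀ (by positivity)] at h2
        exact h2.le
    have h3 := re_ge ψ h1 hpos X u hX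
    have h4 : ψ X = f pt := by
      rw [hdec, map_add, map_sum, map_sum]
      congr 1
      · refine Finset.sum_congr rfl fun i _ => ?_
        rw [map_sub, hc, sub_self, Pi.zero_apply, map_zero]
      · refine Finset.sum_congr rfl fun j _ => ?_
        rw [map_smul, smul_eq_mul]
    rw [h4] at h3
    exact absurd hf1 (not_lt.2 h3)

end Pool.Agent.N83.QW
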