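import Mathlib

/-!
# Unitary dilation of a contraction
-/

set_option autoImplicit false

namespace Pool.Agent.N83.QW

open scoped InnerProductSpace ComplexOrder

variable {H : Type*} [NormedAddCommGroup H] [InnerProductSpace ℂ H] [CompleteSpace H]

/-- the space `H ⊕ H` -/
abbrev KK (H : Type*) : Type _ := WithLp 2 (H × H)

/-- `(v, w) ↦ (b w, b* v)` -/
noncomputable def opF (b : H →L[ℂ] H) (hb : ‖b‖ ≤ 1) : KK H →L[ℂ] KK H :=
  LinearMap.mkContinuous
    { toFun := fun x => WithLp.toLp 2 (b x.snd, b.adjoint x.fst)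
      map_add' := fun x y => by
        rw [WithLp.add_snd, WithLp.add_fst, map_add, map_add]
        rfl
      map_smul' := fun c x => by
        rw [WithLp.smul_snd, WithLp.smul_fst, map_smul, map_smul]
        rfl } 1 (by
    intro x
    rw [one_mul]
    have h1 : ‖b x.snd‖ ≤ ‖x.snd‖ := (b.le_opNorm _).trans (by nlinarith [norm_nonneg x.snd])
    have hb' : ‖b.adjoint‖ ≤ 1 := by rw [ContinuousLinearMap.adjoint.norm_map]; exact hb
    have h2 : ‖b.adjoint x.fst‖ ≤ ‖x.fst‖ :=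
      (b.adjoint.le_opNorm _).trans (by nlinarith [norm_nonneg x.fst])
    refine le_of_sq_le_sq ?_ (norm_nonneg _)
    rw [WithLp.prod_norm_sq_eq_of_L2, WithLp.prod_norm_sq_eq_of_L2]
    show ‖b x.snd‖ ^ 2 + ‖b.adjoint x.fst‖ ^ 2 ≤ _
    nlinarith [norm_nonneg (b x.snd), norm_nonneg (b.adjoint x.fst), norm_nonneg x.snd,
      norm_nonneg x.fst])

lemma opF_apply (b : H →L[ℂ] H) (hb : ‖b‖ ≤ 1) (x : KK H) :
    opF b hb x = WithLp.toLp 2 (b x.snd, b.adjoint x.fst) := rfl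

lemma norm_opF_le (b : H →L[ℂ] H) (hb : ‖b‖ ≤ 1) : ‖opF b hb‖ ≤ 1 :=
  LinearMap.mkContinuous_norm_le _ zero_le_one _

lemma opF_sa (b : H →L[ℂ] H) (hb : ‖b‖ ≤ 1) : IsSelfAdjoint (opF b hb) := by
  rw [ContinuousLinearMap.isSelfAdjoint_iff_isSymmetric]
  intro x y
  show ⟪opF b hb x, y⟫_ℂ = ⟪x, opF b hb y⟫_ℂ
  rw [opF_apply, opF_apply, WithLp.prod_inner_apply, WithLp.prod_inner_apply]
  show ⟪b x.snd, y.fst⟫_ℂ + ⟪b.adjoint x.fst, y.snd⟫_ℂ =
    ⟪x.fst, b y.snd⟫_ℂ + ⟪x.snd, b.adjoint y.fst⟫_ℂ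
  rw [ContinuousLinearMap.adjoint_inner_left, ContinuousLinearMap.adjoint_inner_right, add_comm]

/-- `(v, w) ↦ (v, -w)` -/
noncomputable def opG : KK H →L[ℂ] KK H :=
  LinearMap.mkContinuous
    { toFun := fun x => WithLp.toLp 2 (x.fst, -x.snd)
      map_add' := fun x y => by
        rw [WithLp.add_snd, WithLp.add_fst, neg_add]
        rfl
      map_smul' := fun c x => by
        rw [WithLp.smul_snd, WithLp.smul_fst, ← smul_neg]
        rfl } 1 (by
    intro x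
    rw [one_mul]
    refine le_of_sq_le_sq ?_ (norm_nonneg _)
    rw [WithLp.prod_norm_sq_eq_of_L2, WithLp.prod_norm_sq_eq_of_L2]
    show ‖x.fst‖ ^ 2 + ‖-x.snd‖ ^ 2 ≤ _
    rw [norm_neg])

omit [CompleteSpace H] in
lemma opG_apply (x : KK H) : (opG : KK H →L[ℂ] KK H) x = WithLp.toLp 2 (x.fst, -x.snd) := rfl

/-- the swap -/
noncomputable def swp : KK H ≃ₗᵢ[ℂ] KK H where
  toLinearEquiv :=
    { toFun := fun x => WithLp.toLp 2 (x.snd, x.fst)
      invFun := fun x => WithLp.toLp 2 (x.snd, x.fst)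
      left_inv := fun x => rfl
      right_inv := fun x => rfl
      map_add' := fun x y => rfl
      map_smul' := fun c x => rfl }
  norm_map' := fun x => by
    have h : ‖WithLp.toLp 2 (x.snd, x.fst)‖ ^ 2 = ‖x‖ ^ 2 := by
      rw [WithLp.prod_norm_sq_eq_of_L2, WithLp.prod_norm_sq_eq_of_L2]
      show ‖x.snd‖ ^ 2 + ‖x.fst‖ ^ 2 = _
      rw [add_comm]
    exact (sq_eq_sq₀ (norm_nonneg _) (norm_nonneg _)).1 h

lemma exists_sqrt {A : Type*} [CStarAlgebra A] [PartialOrder A] [StarOrderedRing A] (F G : A)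
    (hF : IsSelfAdjoint F) (hn : ‖F‖ ≤ 1) (h : Commute (1 - F ^ 2) G) :
    ∃ Z : A, F + Complex.I • Z ∈ unitary A ∧ Commute Z G := by
  refine ⟨CFC.sqrt (1 - F ^ 2), hF.self_add_I_smul_cfcSqrt_sub_sq_mem_unitary F hn, ?_⟩
  rw [CFC.sqrt]
  exact h.cfcₙ_nnreal _

theorem exists_dilation (b : H →L[ℂ] H) (hb : ‖b‖ ≤ 1) :
    ∃ V : KK H ≃ₗᵢ[ℂ] KK H, ∀ w : H, (V (WithLp.toLp 2 (w, 0))).fst = b w := by
  set F := opF b hb with hF
  have hsa : IsSelfAdjoint F := opF_sa b hb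
  have hcomm : Commute (1 - F ^ 2) (opG : KK H →L[ℂ] KK H) := by
    show (1 - F ^ 2) * opG = opG * (1 - F ^ 2)
    ext x
    show (1 - F ^ 2 : KK H →L[ℂ] KK H) (opG x) = opG ((1 - F ^ 2 : KK H →L[ℂ] KK H) x)
    have h1 : ∀ y : KK H, (1 - F ^ 2 : KK H →L[ℂ] KK H) y =
        WithLp.toLp 2 (y.fst - b (b.adjoint y.fst), y.snd - b.adjoint (b y.snd)) := by
      intro y
      rw [sq]
      rfl
    rw [h1, h1, opG_apply, opG_apply]
    show WithLp.toLp 2 (x.fst - b (b.adjoint x.fst), -x.snd - b.adjoint (b (-x.snd))) =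
      WithLp.toLp 2 (x.fst - b (b.adjoint x.fst), -(x.snd - b.adjoint (b x.snd)))
    rw [map_neg, map_neg, sub_neg_eq_add, neg_sub]
    congr 2
    abel
  obtain ⟨Z, hU, hZ⟩ := exists_sqrt F opG hsa (norm_opF_le b hb) hcomm
  let U : unitary (KK H →L[ℂ] KK H) := ⟨F + Complex.I • Z, hU⟩
  refine ⟨swp.trans (Unitary.linearIsometryEquiv U), fun w => ?_⟩
  have h1 : (swp.trans (Unitary.linearIsometryEquiv U)) (WithLp.toLp 2 (w, 0)) =
      F (WithLp.toLp 2 (0, w)) + Complex.I • Z (WithLp.toLp 2 (0, w)) := rfl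
  have h2 : (Z (WithLp.toLp 2 ((0 : H), w))).fst = 0 := by
    have h3 : Z (opG (WithLp.toLp 2 ((0 : H), w))) =
        opG (Z (WithLp.toLp 2 ((0 : H), w))) :=
      congrArg (fun A : KK H →L[ℂ] KK H => A (WithLp.toLp 2 ((0 : H), w))) hZ.eq
    have h4 : (opG (WithLp.toLp 2 ((0 : H), w)) : KK H) = -WithLp.toLp 2 ((0 : H), w) := by
      rw [opG_apply]
      show WithLp.toLp 2 ((0 : H), -w) = -WithLp.toLp 2 ((0 : H), w)
      rw [← WithLp.toLp_neg, Prod.neg_mk, neg_zero]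
    rw [h4, map_neg, opG_apply] at h3
    have h5 := congrArg (fun y : KK H => y.fst) h3
    have h6 : -(Z (WithLp.toLp 2 ((0 : H), w))).fst =
      (Z (WithLp.toLp 2 ((0 : H), w))).fst := h5
    have h7 : (2 : ℂ) • (Z (WithLp.toLp 2 ((0 : H), w))).fst = 0 := by
      rw [two_smul]
      nth_rewrite 1 [← h6]
      exact neg_add_cancel _
    exact (smul_eq_zero.1 h7).resolve_left two_ne_zero
  rw [h1]
  have h3 : (F (WithLp.toLp 2 (0, w)) +
      Complex.I • Z (WithLp.toLp 2 ((0 : H), w))).fst =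
      b w + Complex.I • (Z (WithLp.toLp 2 ((0 : H), w))).fst := rfl
  rw [h3, h2, smul_zero, add_zero]

end Pool.Agent.N83.QW
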