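import Pool.Agent.N83.QW.PS
import Pool.Agent.H21R2.HFro

/-!
# Commutators with the root of a density
-/

set_option autoImplicit false

namespace Pool.Agent.N83.QW

open Matrix
open scoped ComplexOrder Matrix.Norms.L2Operator InnerProductSpace MatrixOrder
open Pool.Agent.H21R2 (fro2 fro2_eq_trace fro2_nonneg fro2_conjTranspose)

variable {n : Type*} [Fintype n] [DecidableEq n]

lemma norm_one_le_mat : ‖(1 : Matrix n n ℂ)‖ ≤ 1 := by
  have h := CStarRing.norm_star_mul_self (x := (1 : Matrix n n ℂ))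
  rw [star_one, one_mul] at h
  nlinarith [norm_nonneg (1 : Matrix n n ℂ)]

lemma fro2_mul_le (B W X : Matrix n n ℂ) (h : 1 - Bᴴ * B = Wᴴ * W) : fro2 (B * X) ≤ fro2 X := by
  have h1 : Bᴴ * B = 1 - Wᴴ * W := by rw [← h]; abel
  have h2 : ((fro2 (B * X) : ℝ) : ℂ) = ((fro2 X - fro2 (W * X) : ℝ) : ℂ) := by
    rw [Complex.ofReal_sub, fro2_eq_trace, fro2_eq_trace, fro2_eq_trace, conjTranspose_mul,
      conjTranspose_mul, ← trace_sub]
    congr 1
    have e1 : Xᴴ * Bᴴ * (B * X) = Xᴴ * (Bᴴ * B) * X := by noncomm_ring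
    rw [e1, h1]
    noncomm_ring
  have h3 : fro2 (B * X) = fro2 X - fro2 (W * X) := by exact_mod_cast h2
  rw [h3]
  have := fro2_nonneg (W * X)
  linarith

theorem matrix_bound (f : n → ℝ) (hf : ∀ i, 0 ≤ f i) (B : Matrix n n ℂ)
    (hB : (1 - Bᴴ * B).PosSemidef) (δ : ℝ)
    (h : ∀ s : Matrix n n ℂ, ‖s‖ ≤ 1 →
      (trace (((diagonal fun i => (f i : ℂ)) * (diagonal fun i => (f i : ℂ)) -
        B * ((diagonal fun i => (f i : ℂ)) * (diagonal fun i => (f i : ℂ))) * Bᴴ) * s)).re ≤ δ) :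
    2 * ∑ i, f i ^ 2 - 2 * ∑ i, ∑ j, ‖B i j‖ ^ 2 * (f i * f j) ≤ 4 * δ := by
  set T : Matrix n n ℂ := diagonal fun i => (f i : ℂ) with hT
  have hTp : T.PosSemidef := by
    rw [hT, posSemidef_diagonal_iff]
    intro i
    exact_mod_cast hf i
  have hTh : Tᴴ = T := hTp.isHermitian
  set C : Matrix n n ℂ := B * T * Bᴴ with hC
  have hCp : C.PosSemidef := hTp.mul_mul_conjTranspose_same B
  obtain ⟨s, hs1, hs2, hs3⟩ := powers_stormer T C hTp hCp
  obtain ⟨W, hW⟩ : ∃ W : Matrix n n ℂ, 1 - Bᴴ * B = Wᴴ * W :=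
    CStarAlgebra.nonneg_iff_eq_star_mul_self.mp hB.nonneg
  set K : Matrix n n ℂ := B * (T * Wᴴ) with hK
  have hKK : B * (T * T) * Bᴴ - C * C = K * Kᴴ := by
    have e1 : K * Kᴴ = B * T * (Wᴴ * W) * T * Bᴴ := by
      rw [hK, conjTranspose_mul, conjTranspose_mul, conjTranspose_conjTranspose, hTh]
      noncomm_ring
    rw [e1, ← hW, hC]
    noncomm_ring
  set R : ℝ := fro2 K with hR
  have hRtr : (trace (K * Kᴴ)).re = R := by
    have : ((fro2 Kᴴ : ℝ) : ℂ) = trace (K * Kᴴ) := by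
      rw [fro2_eq_trace, conjTranspose_conjTranspose]
    rw [← this, Complex.ofReal_re, fro2_conjTranspose]
  have h1 : (trace (K * Kᴴ * s)).re ≤ R := by
    have h2 : 0 ≤ (trace (Kᴴ * (1 - s) * K)).re :=
      (Complex.nonneg_iff.1 (hs2.conjTranspose_mul_mul_same K).trace_nonneg).1
    have e : trace (Kᴴ * (1 - s) * K) = trace (K * Kᴴ) - trace (K * Kᴴ * s) := by
      rw [← trace_sub, trace_mul_comm, ← Matrix.mul_assoc]
      congr 1
      noncomm_ring
    rw [e, Complex.sub_re, hRtr] at h2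
    linarith
  have h0 := h 1 norm_one_le_mat
  have h3 : R ≤ δ := by
    refine le_trans (fro2_mul_le B W (T * Wᴴ) hW) ?_
    have e : ((fro2 (T * Wᴴ) : ℝ) : ℂ) = trace ((T * T - B * (T * T) * Bᴴ) * 1) := by
      rw [← fro2_conjTranspose, fro2_eq_trace, conjTranspose_conjTranspose, conjTranspose_mul,
        conjTranspose_conjTranspose, hTh]
      have e1 : T * Wᴴ * (W * T) = T * (Wᴴ * W) * T := by noncomm_ring
      have e2 : trace (B * (T * T) * Bᴴ) = trace (T * (Bᴴ * B) * T) := by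
        rw [trace_mul_comm (B * (T * T)) Bᴴ, trace_mul_comm (T * (Bᴴ * B)) T,
          ← Matrix.mul_assoc T T, trace_mul_comm (T * T) (Bᴴ * B), Matrix.mul_assoc Bᴴ B]
      rw [e1, ← hW, mul_one, trace_sub, e2, ← trace_sub]
      congr 1
      noncomm_ring
    have e3 : fro2 (T * Wᴴ) = (trace ((T * T - B * (T * T) * Bᴴ) * 1)).re := by
      rw [← e, Complex.ofReal_re]
    rw [e3]
    exact h0
  have h4 := h s hs1
  have hTT : (trace (T * T)).re = ∑ i, f i ^ 2 := by
    rw [hT, diagonal_mul_diagonal, trace_diagonal, Complex.re_sum]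
    refine Finset.sum_congr rfl fun i _ => ?_
    rw [← Complex.ofReal_mul, Complex.ofReal_re, sq]
  have hTC : (trace (T * C)).re = ∑ i, ∑ j, ‖B i j‖ ^ 2 * (f i * f j) := by
    rw [trace, Complex.re_sum]
    refine Finset.sum_congr rfl fun i _ => ?_
    rw [diag_apply, hT, diagonal_mul, hC, mul_apply, Finset.mul_sum, Complex.re_sum]
    refine Finset.sum_congr rfl fun j _ => ?_
    rw [hT, mul_diagonal, conjTranspose_apply, Complex.star_def]
    have e : (f i : ℂ) * (B i j * (f j : ℂ) * (starRingEnd ℂ) (B i j)) =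
        ((f i * f j : ℝ) : ℂ) * (B i j * (starRingEnd ℂ) (B i j)) := by
      push_cast
      ring
    rw [e, Complex.mul_conj', ← Complex.ofReal_pow, ← Complex.ofReal_mul, Complex.ofReal_re]
    ring
  have hexp : trace ((T - C) * (T - C)) = trace (T * T) - 2 * trace (T * C) + trace (C * C) := by
    have e1 : (T - C) * (T - C) = T * T - T * C - C * T + C * C := by noncomm_ring
    rw [e1, trace_add, trace_sub, trace_sub, trace_mul_comm C T]
    ring
  have hexp' : (trace ((T - C) * (T - C))).re =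
      (trace (T * T)).re - 2 * (trace (T * C)).re + (trace (C * C)).re := by
    rw [hexp, Complex.add_re, Complex.sub_re]
    simp
  have hCC : (trace (T * T)).re - (trace (C * C)).re ≤ δ + R := by
    have e1 : T * T - C * C = (T * T - B * (T * T) * Bᴴ) * 1 + K * Kᴴ := by
      rw [← hKK]
      noncomm_ring
    have e2 : (trace (T * T)).re - (trace (C * C)).re =
        (trace ((T * T - B * (T * T) * Bᴴ) * 1)).re + (trace (K * Kᴴ)).re := by
      rw [← Complex.sub_re, ← trace_sub, e1, trace_add, Complex.add_re]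
    rw [e2, hRtr]
    linarith
  have hs4 : (trace ((T * T - C * C) * s)).re ≤ δ + R := by
    have e1 : (T * T - C * C) * s = (T * T - B * (T * T) * Bᴴ) * s + K * Kᴴ * s := by
      rw [← hKK]
      noncomm_ring
    rw [e1, trace_add, Complex.add_re]
    linarith
  rw [hexp', hTT, hTC] at hs3
  rw [hTT] at hCC
  linarith

end Pool.Agent.N83.QW
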