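import Pool.Agent.N83.QW.Day

/-!
# Spectral decomposition of a sum of vector functionals
-/

set_option autoImplicit false

namespace Pool.Agent.N83.QW

open scoped InnerProductSpace ComplexOrder

variable {H : Type*} [NormedAddCommGroup H] [InnerProductSpace ℂ H]

lemma om_eq_sum (l : List H) (x : H →L[ℂ] H) :
    om l x = ∑ k : Fin l.length, ⟪l.get k, x (l.get k)⟫_ℂ := by
  induction l with
  | nil => simp [om]
  | cons v l ih =>
    rw [om_cons, add_apply, ih, vf_apply]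
    show _ = ∑ k : Fin (l.length + 1), _
    rw [Fin.sum_univ_succ]
    rfl

theorem spec (l : List H) : ∃ (m : ℕ) (e : Fin m → H) (f : Fin m → ℝ), Orthonormal ℂ e ∧
    (∀ i, 0 ≤ f i) ∧ ∀ x : H →L[ℂ] H, om l x = ∑ i, (f i : ℂ) ^ 2 * ⟪e i, x (e i)⟫_ℂ := by
  classical
  set v : Fin l.length → H := l.get with hv
  let W : Submodule ℂ H := Submodule.span ℂ (Set.range v)
  have hWfin : FiniteDimensional ℂ W := FiniteDimensional.span_of_finite ℂ (Set.finite_range v)
  let v' : Fin l.length → W := fun k => ⟨v k, Submodule.subset_span ⟨k, rfl⟩⟩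
  let S : W →ₗ[ℂ] W := ∑ k, (innerₛₗ ℂ (v' k)).smulRight (v' k)
  have hS : ∀ w, S w = ∑ k, ⟪v' k, w⟫_ℂ • v' k := by
    intro w
    simp only [S, LinearMap.sum_apply, LinearMap.smulRight_apply, innerₛₗ_apply_apply]
  have hsym : S.IsSymmetric := by
    intro a b
    rw [hS, hS, sum_inner, inner_sum]
    refine Finset.sum_congr rfl fun k _ => ?_
    rw [inner_smul_left, inner_smul_right, inner_conj_symm, mul_comm]
  let e' := hsym.eigenvectorBasis rfl
  let mu := hsym.eigenvalues rfl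
  have hmu : ∀ i j, ∑ k, ⟪v' k, e' i⟫_ℂ * ⟪e' j, v' k⟫_ℂ = if j = i then (mu i : ℂ) else 0 := by
    intro i j
    have h1 : S (e' i) = (mu i : ℂ) • e' i := hsym.apply_eigenvectorBasis rfl i
    have h2 : ⟪e' j, S (e' i)⟫_ℂ = if j = i then (mu i : ℂ) else 0 := by
      rw [h1, inner_smul_right, orthonormal_iff_ite.1 e'.orthonormal j i]
      split_ifs <;> simp
    rw [← h2, hS, inner_sum]
    refine Finset.sum_congr rfl fun k _ => ?_
    rw [inner_smul_right]
  have hmu0 : ∀ i, 0 ≤ mu i := by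
    intro i
    have h1 := hmu i i
    rw [if_pos rfl] at h1
    have h2 : ∑ k, ⟪v' k, e' i⟫_ℂ * ⟪e' i, v' k⟫_ℂ = ((∑ k, ‖⟪e' i, v' k⟫_ℂ‖ ^ 2 : ℝ) : ℂ) := by
      push_cast
      refine Finset.sum_congr rfl fun k _ => ?_
      rw [← inner_conj_symm (v' k) (e' i), Complex.conj_mul']
    rw [h2] at h1
    have h3 : ∑ k, ‖⟪e' i, v' k⟫_ℂ‖ ^ 2 = mu i := by exact_mod_cast h1
    rw [← h3]
    positivity
  refine ⟨_, fun i => (e' i : H), fun i => Real.sqrt (mu i), ?_, fun i => Real.sqrt_nonneg _, ?_⟩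
  · have := e'.orthonormal
    rw [orthonormal_iff_ite] at this ⊢
    intro i j
    exact this i j
  · intro x
    rw [om_eq_sum]
    have h1 : ∀ k, ⟪v k, x (v k)⟫_ℂ = ∑ i, ∑ j, ⟪v' k, e' i⟫_ℂ * ⟪e' j, v' k⟫_ℂ *
        ⟪(e' i : H), x (e' j)⟫_ℂ := by
      intro k
      have h2 : v k = ∑ i, ⟪e' i, v' k⟫_ℂ • (e' i : H) := by
        have h3 := congrArg (W.subtype) (e'.sum_repr' (v' k))
        rw [map_sum] at h3
        exact h3.symm
      conv_lhs => rw [h2]
      rw [map_sum, sum_inner]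
      refine Finset.sum_congr rfl fun i _ => ?_
      rw [inner_sum]
      refine Finset.sum_congr rfl fun j _ => ?_
      rw [map_smul, inner_smul_left, inner_smul_right, inner_conj_symm]
      ring
    change ∑ k, ⟪v k, x (v k)⟫_ℂ = _
    rw [Finset.sum_congr rfl fun k _ => h1 k, Finset.sum_comm]
    refine Finset.sum_congr rfl fun i _ => ?_
    rw [Finset.sum_comm]
    have h4 : ∀ j, ∑ k, ⟪v' k, e' i⟫_ℂ * ⟪e' j, v' k⟫_ℂ * ⟪(e' i : H), x (e' j)⟫_ℂ =
        if j = i then (mu i : ℂ) * ⟪(e' i : H), x (e' i)⟫_ℂ else 0 := by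
      intro j
      rw [← Finset.sum_mul, hmu i j]
      split_ifs with h
      · rw [h]
      · rw [zero_mul]
    rw [Finset.sum_congr rfl fun j _ => h4 j, Finset.sum_ite_eq' Finset.univ i, if_pos
      (Finset.mem_univ i), ← Complex.ofReal_pow, Real.sq_sqrt (hmu0 i)]

end Pool.Agent.N83.QW
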