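import Pool.Agent.N83.QW.Op
import Pool.Agent.N83.QW.Spec
import Pool.Agent.N83.QW.Dil
import Pool.Agent.H21R2.HHilb

/-!
# Central states on `B(H)` and hyperlinear groups

If `ψ` is a state on `B(H)` which commutes with contractions `b g` (`g` in the group `P`) that are
multiplicative and unitary modulo `ψ`, with `ψ (b g) = 0` for `g ≠ 1`, then `P` is hyperlinear.
-/

set_option autoImplicit false

namespace Pool.Agent.N83.QW

open Finset
open scoped InnerProductSpace ComplexOrder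
open Pool.Agent.H21R2 (IsHyperlinear hyperlinear_of_data hilbert_reduce N2 E2)

variable {H : Type*} [NormedAddCommGroup H] [InnerProductSpace ℂ H] [CompleteSpace H]

lemma norm_map_le {b : H →L[ℂ] H} (hb : ‖b‖ ≤ 1) (v : H) : ‖b v‖ ≤ ‖v‖ :=
  (b.le_opNorm v).trans (by nlinarith [norm_nonneg v])

/-- `‖(1 - b b*) v‖² ≤ ‖v‖² - ‖b* v‖²` -/
lemma defect_sq (b : H →L[ℂ] H) (hb : ‖b‖ ≤ 1) (v : H) :
    ‖v - b (b.adjoint v)‖ ^ 2 ≤ ‖v‖ ^ 2 - ‖b.adjoint v‖ ^ 2 := by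
  have h1 : ‖v - b (b.adjoint v)‖ ^ 2 = ‖v‖ ^ 2 - 2 * (⟪v, b (b.adjoint v)⟫_ℂ).re +
      ‖b (b.adjoint v)‖ ^ 2 := by
    rw [@norm_sub_sq ℂ]
    rfl
  have h2 : (⟪v, b (b.adjoint v)⟫_ℂ).re = ‖b.adjoint v‖ ^ 2 := by
    rw [← ContinuousLinearMap.adjoint_inner_left]
    have h3 : ⟪b.adjoint v, b.adjoint v⟫_ℂ = ((‖b.adjoint v‖ : ℝ) : ℂ) ^ 2 :=
      inner_self_eq_norm_sq_to_K _
    rw [h3, ← Complex.ofReal_pow, Complex.ofReal_re]
  have h3 : ‖b (b.adjoint v)‖ ^ 2 ≤ ‖b.adjoint v‖ ^ 2 :=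
    pow_le_pow_left₀ (norm_nonneg _) (norm_map_le hb _) 2
  rw [h1, h2]
  linarith

lemma re_defect (b : H →L[ℂ] H) (v : H) :
    (⟪v, (1 - b * star b : H →L[ℂ] H) v⟫_ℂ).re = ‖v‖ ^ 2 - ‖b.adjoint v‖ ^ 2 := by
  have e : (1 - b * star b : H →L[ℂ] H) v = v - b (b.adjoint v) := rfl
  rw [e, inner_sub_right, ← ContinuousLinearMap.adjoint_inner_left, Complex.sub_re]
  have h3 : ⟪b.adjoint v, b.adjoint v⟫_ℂ = ((‖b.adjoint v‖ : ℝ) : ℂ) ^ 2 :=
    inner_self_eq_norm_sq_to_K _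
  have h4 : ⟪v, v⟫_ℂ = ((‖v‖ : ℝ) : ℂ) ^ 2 := inner_self_eq_norm_sq_to_K _
  rw [h3, h4, ← Complex.ofReal_pow, Complex.ofReal_re, ← Complex.ofReal_pow, Complex.ofReal_re]

lemma om_defect (b : H →L[ℂ] H) (hb : ‖b‖ ≤ 1) (x : H →L[ℂ] H) (t : ℝ) (ht : 0 < t)
    (l : List H) : ‖om l ((1 - b * star b) * x)‖ ≤
      ‖x‖ * ((om l (1 - b * star b)).re / (2 * t) + t / 2 * mass l) := by
  induction l with
  | nil => simp [om, mass]
  | cons v l ih =>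
    rw [om_cons, add_apply, add_apply, Complex.add_re, mass_cons]
    have h1 : ‖vf v v ((1 - b * star b) * x)‖ ≤
        ‖x‖ * ((vf v v (1 - b * star b)).re / (2 * t) + t / 2 * ‖v‖ ^ 2) := by
      rw [vf_apply, vf_apply, re_defect]
      have e : ((1 - b * star b) * x : H →L[ℂ] H) v = x v - b (b.adjoint (x v)) := rfl
      have e2 : ⟪v, x v - b (b.adjoint (x v))⟫_ℂ = ⟪v - b (b.adjoint v), x v⟫_ℂ := by
        rw [inner_sub_right, inner_sub_left]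
        congr 1
        rw [← ContinuousLinearMap.adjoint_inner_left b, ContinuousLinearMap.adjoint_inner_right]
      rw [e, e2]
      have h3 := defect_sq b hb v
      set D := ‖v - b (b.adjoint v)‖ with hD
      have h4 : ‖⟪v - b (b.adjoint v), x v⟫_ℂ‖ ≤ D * (‖x‖ * ‖v‖) :=
        (norm_inner_le_norm _ _).trans (by gcongr; exact x.le_opNorm v)
      refine h4.trans ?_
      have h5 : D * ‖v‖ ≤ D ^ 2 / (2 * t) + t / 2 * ‖v‖ ^ 2 := by
        have h6 : 0 ≤ (D - t * ‖v‖) ^ 2 / (2 * t) := by positivity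
        have h7 : (D - t * ‖v‖) ^ 2 / (2 * t) = D ^ 2 / (2 * t) - D * ‖v‖ + t / 2 * ‖v‖ ^ 2 := by
          field_simp
          ring
        rw [h7] at h6
        linarith
      have h8 : D ^ 2 / (2 * t) ≤ (‖v‖ ^ 2 - ‖b.adjoint v‖ ^ 2) / (2 * t) := by gcongr
      calc D * (‖x‖ * ‖v‖) = ‖x‖ * (D * ‖v‖) := by ring
        _ ≤ _ := by
          apply mul_le_mul_of_nonneg_left _ (norm_nonneg x)
          linarith
    calc _ ≤ ‖vf v v ((1 - b * star b) * x)‖ + ‖om l ((1 - b * star b) * x)‖ := norm_add_le _ _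
      _ ≤ _ := add_le_add h1 ih
      _ = _ := by ring

/-- The basic estimate. -/
lemma om_conj (b : H →L[ℂ] H) (hb : ‖b‖ ≤ 1) (x : H →L[ℂ] H) (hx : ‖x‖ ≤ 1) (s : ℝ) (hs : 0 < s)
    (l : List H) (hl : mass l = 1) (hc : ‖cm b l‖ ≤ s ^ 2)
    (hD : (om l (1 - b * star b)).re ≤ s ^ 2) :
    ‖om l x - om l (star b * x * b)‖ ≤ s ^ 2 + s := by
  have e : om l x - om l (star b * x * b) = om l ((1 - b * star b) * x) - cm b l (star b * x) := by
    rw [cm_apply, sub_mul, map_sub, one_mul, mul_assoc b, mul_assoc]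
    ring
  rw [e]
  have h1 : ‖cm b l (star b * x)‖ ≤ s ^ 2 := by
    have h2 : ‖star b * x‖ ≤ 1 := by
      refine (norm_mul_le _ _).trans ?_
      rw [norm_star]
      nlinarith [norm_nonneg x, norm_nonneg b]
    refine ((cm b l).le_opNorm _).trans ?_
    nlinarith [norm_nonneg (cm b l), norm_nonneg (star b * x)]
  have h3 : ‖om l ((1 - b * star b) * x)‖ ≤ s := by
    refine (om_defect b hb x s hs l).trans ?_
    rw [hl]
    have h4 : (om l (1 - b * star b)).re / (2 * s) + s / 2 * 1 ≤ s := by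
      have : (om l (1 - b * star b)).re / (2 * s) ≤ s ^ 2 / (2 * s) := by gcongr
      have h5 : s ^ 2 / (2 * s) = s / 2 := by field_simp
      linarith
    have h6 : 0 ≤ (om l (1 - b * star b)).re := by
      apply om_add_apply
      intro v
      rw [re_defect]
      have hb' : ‖b.adjoint‖ ≤ 1 := by rw [ContinuousLinearMap.adjoint.norm_map]; exact hb
      have := pow_le_pow_left₀ (norm_nonneg _) (norm_map_le hb' v) 2
      linarith
    have h7 : 0 ≤ (om l (1 - b * star b)).re / (2 * s) + s / 2 * 1 := by positivity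
    nlinarith [norm_nonneg x]
  refine (norm_sub_le _ _).trans ?_
  linarith

lemma re_inner_self' (v : H) : (⟪v, v⟫_ℂ).re = ‖v‖ ^ 2 := by
  have h4 : ⟪v, v⟫_ℂ = ((‖v‖ : ℝ) : ℂ) ^ 2 := inner_self_eq_norm_sq_to_K _
  rw [h4, ← Complex.ofReal_pow, Complex.ofReal_re]

/-- real parts of weighted sums -/
lemma re_wsum {m : ℕ} (f : Fin m → ℝ) (z : Fin m → ℂ) :
    (∑ i, (f i : ℂ) ^ 2 * z i).re = ∑ i, f i ^ 2 * (z i).re := by
  rw [Complex.re_sum]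
  refine Finset.sum_congr rfl fun i _ => ?_
  rw [← Complex.ofReal_pow, Complex.re_ofReal_mul]

omit [CompleteSpace H] in
lemma norm_four (p q r t : H) :
    ‖p + q - r - t‖ ^ 2 ≤ 4 * (‖p‖ ^ 2 + ‖q‖ ^ 2 + ‖r‖ ^ 2 + ‖t‖ ^ 2) := by
  have h : ‖p + q - r - t‖ ≤ ‖p‖ + ‖q‖ + ‖r‖ + ‖t‖ := by
    refine (norm_sub_le _ _).trans ?_
    gcongr
    refine (norm_sub_le _ _).trans ?_
    gcongr
    exact norm_add_le _ _
  have h2 := pow_le_pow_left₀ (norm_nonneg _) h 2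
  nlinarith [sq_nonneg (‖p‖ - ‖q‖), sq_nonneg (‖p‖ - ‖r‖), sq_nonneg (‖p‖ - ‖t‖),
    sq_nonneg (‖q‖ - ‖r‖), sq_nonneg (‖q‖ - ‖t‖), sq_nonneg (‖r‖ - ‖t‖)]

omit [CompleteSpace H] in
lemma snd_sq (V : KK H ≃ₗᵢ[ℂ] KK H) (w : H) :
    ‖(V (WithLp.toLp 2 (w, 0))).snd‖ ^ 2 = ‖w‖ ^ 2 - ‖(V (WithLp.toLp 2 (w, 0))).fst‖ ^ 2 := by
  have h1 := WithLp.prod_norm_sq_eq_of_L2 (V (WithLp.toLp 2 (w, 0)))
  rw [V.norm_map, WithLp.prod_norm_sq_eq_of_L2] at h1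
  have h2 : ‖(WithLp.toLp 2 (w, (0 : H))).fst‖ ^ 2 + ‖(WithLp.toLp 2 (w, (0 : H))).snd‖ ^ 2 =
      ‖w‖ ^ 2 := by
    show ‖w‖ ^ 2 + ‖(0 : H)‖ ^ 2 = _
    rw [norm_zero]
    ring
  rw [h2] at h1
  linarith

omit [CompleteSpace H] in
lemma norm_inl_sq (w : H) : ‖(WithLp.toLp 2 (w, (0 : H)) : KK H)‖ ^ 2 = ‖w‖ ^ 2 := by
  rw [WithLp.prod_norm_sq_eq_of_L2]
  show ‖w‖ ^ 2 + ‖(0 : H)‖ ^ 2 = _
  rw [norm_zero]
  ring

omit [CompleteSpace H] in
lemma norm_inr_sq (w : H) : ‖(WithLp.toLp 2 ((0 : H), w) : KK H)‖ ^ 2 = ‖w‖ ^ 2 := by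
  rw [WithLp.prod_norm_sq_eq_of_L2]
  show ‖(0 : H)‖ ^ 2 + ‖w‖ ^ 2 = _
  rw [norm_zero]
  ring

omit [CompleteSpace H] in
lemma mult_bound (V1 V2 V3 : KK H ≃ₗᵢ[ℂ] KK H) (b1 b2 b3 : H →L[ℂ] H)
    (h1 : ∀ w : H, (V1 (WithLp.toLp 2 (w, 0))).fst = b1 w)
    (h2 : ∀ w : H, (V2 (WithLp.toLp 2 (w, 0))).fst = b2 w)
    (h3 : ∀ w : H, (V3 (WithLp.toLp 2 (w, 0))).fst = b3 w) (w : H) :
    ‖V1 (WithLp.toLp 2 (w, 0)) - V2 (V3 (WithLp.toLp 2 (w, 0)))‖ ^ 2 ≤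
      4 * (‖b1 w - b2 (b3 w)‖ ^ 2 + (‖w‖ ^ 2 - ‖b1 w‖ ^ 2) +
        (‖b3 w‖ ^ 2 - ‖b2 (b3 w)‖ ^ 2) + (‖w‖ ^ 2 - ‖b3 w‖ ^ 2)) := by
  set y1 : KK H := V1 (WithLp.toLp 2 (w, 0)) with hy1
  set y3 : KK H := V3 (WithLp.toLp 2 (w, 0)) with hy3
  set z : KK H := V2 (WithLp.toLp 2 (b3 w, 0)) with hz
  set r : KK H := V2 (WithLp.toLp 2 (0, y3.snd)) with hr
  have e3 : V2 y3 = z + r := by
    rw [hz, hr, ← map_add]
    congr 1
    rw [← WithLp.toLp_add, Prod.mk_add_mk, add_zero, zero_add, ← h3]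
    rfl
  have e1 : y1 - V2 y3 = WithLp.toLp 2 (b1 w - b2 (b3 w), (0 : H)) +
      WithLp.toLp 2 ((0 : H), y1.snd) - WithLp.toLp 2 ((0 : H), z.snd) - r := by
    rw [e3, ← sub_sub]
    congr 1
    have k1 : y1 = WithLp.toLp 2 (b1 w, y1.snd) := by rw [← h1]; rfl
    have k2 : z = WithLp.toLp 2 (b2 (b3 w), z.snd) := by rw [← h2]; rfl
    have k3 : y1 - z = (WithLp.toLp 2 (b1 w - b2 (b3 w), y1.snd - z.snd) : KK H) := by
      conv_lhs => rw [k1, k2]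
      rfl
    have k4 : (WithLp.toLp 2 (b1 w - b2 (b3 w), (0 : H)) +
      WithLp.toLp 2 ((0 : H), y1.snd) - WithLp.toLp 2 ((0 : H), z.snd) : KK H) =
      WithLp.toLp 2 (b1 w - b2 (b3 w) + 0 - 0, 0 + y1.snd - z.snd) := rfl
    rw [k3, k4, add_zero, sub_zero, zero_add]
  rw [e1]
  refine (norm_four _ _ _ _).trans ?_
  have n1 : ‖r‖ ^ 2 = ‖w‖ ^ 2 - ‖b3 w‖ ^ 2 := by
    rw [hr, V2.norm_map, norm_inr_sq, hy3, snd_sq, h3]
  have n2 : ‖y1.snd‖ ^ 2 = ‖w‖ ^ 2 - ‖b1 w‖ ^ 2 := by rw [hy1, snd_sq, h1]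
  have n3 : ‖z.snd‖ ^ 2 = ‖b3 w‖ ^ 2 - ‖b2 (b3 w)‖ ^ 2 := by rw [hz, snd_sq, h2]
  rw [norm_inl_sq, norm_inr_sq, norm_inr_sq, n1, n2, n3]

lemma re_defect' (b : H →L[ℂ] H) (v : H) :
    (⟪v, (1 - star b * b : H →L[ℂ] H) v⟫_ℂ).re = ‖v‖ ^ 2 - ‖b v‖ ^ 2 := by
  have h := re_defect (star b) v
  rw [star_star] at h
  rw [h]
  have e : (star b).adjoint = b := by
    rw [ContinuousLinearMap.star_eq_adjoint, ContinuousLinearMap.adjoint_adjoint]
  rw [e]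

lemma norm_defect' (b : H →L[ℂ] H) (hb : ‖b‖ ≤ 1) : ‖(1 - star b * b : H →L[ℂ] H)‖ ≤ 1 := by
  refine ContinuousLinearMap.opNorm_le_bound _ zero_le_one fun v => ?_
  rw [one_mul]
  have hb' : ‖star b‖ ≤ 1 := by rw [norm_star]; exact hb
  have h := defect_sq (star b) hb' v
  have e : (star b).adjoint = b := by
    rw [ContinuousLinearMap.star_eq_adjoint, ContinuousLinearMap.adjoint_adjoint]
  rw [e] at h
  have e2 : (1 - star b * b : H →L[ℂ] H) v = v - (star b) (b v) := rfl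
  rw [e2]
  refine le_of_sq_le_sq ?_ (norm_nonneg _)
  nlinarith [sq_nonneg ‖b v‖]

lemma re_star_mul (c : H →L[ℂ] H) (v : H) :
    (⟪v, (star c * c : H →L[ℂ] H) v⟫_ℂ).re = ‖c v‖ ^ 2 := by
  have e2 : (star c * c : H →L[ℂ] H) v = c.adjoint (c v) := rfl
  rw [e2, ContinuousLinearMap.adjoint_inner_right, re_inner_self']

/-- **Central states give hyperlinear groups.** -/
theorem hyp {P : Type*} [Group P] (ψ : (H →L[ℂ] H) →ₗ[ℂ] ℂ) (h1 : ψ 1 = 1)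
    (hpos : ∀ x, 0 ≤ ψ (star x * x)) (b : P → H →L[ℂ] H) (hb1 : b 1 = 1) (hb : ∀ g, ‖b g‖ ≤ 1)
    (hc : ∀ g x, ψ (b g * x) = ψ (x * b g)) (hu : ∀ g, ψ (star (b g) * b g) = 1)
    (hm : ∀ g h, ψ (star (b (g * h) - b g * b h) * (b (g * h) - b g * b h)) = 0)
    (hd : ∀ g, g ≠ 1 → ψ (b g) = 0) : IsHyperlinear P := by
  classical
  apply hyperlinear_of_data
  intro A h1A g hgA hg ε hε
  -- the parameter
  set s : ℝ := min (1 / 2) (ε / 24) with hs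
  have hs0 : 0 < s := by rw [hs]; positivity
  have hs1 : s ≤ 1 / 2 := min_le_left _ _
  have hs2 : 24 * s ≤ ε := by
    have := min_le_right (1 / 2) (ε / 24)
    rw [← hs] at this
    linarith
  have hss : s ^ 2 ≤ s := by nlinarith
  have hss4 : s ^ 2 ≤ 1 / 4 := by nlinarith
  -- the test operators
  let T : Fin 5 × A × A → (H →L[ℂ] H) := fun p =>
    match p.1 with
    | 0 => 1
    | 1 => b p.2.1
    | 2 => 1 - b p.2.1 * star (b p.2.1)
    | 3 => 1 - star (b p.2.1) * b p.2.1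
    | 4 => star (b (p.2.1 * p.2.2) - b p.2.1 * b p.2.2) * (b (p.2.1 * p.2.2) - b p.2.1 * b p.2.2)
  obtain ⟨l, hl, hcm, htest⟩ := day ψ h1 hpos (fun a : A => b a) (fun a x => hc a x) T (s ^ 2)
    (by positivity)
  have t0 : ‖om l 1 - 1‖ ≤ s ^ 2 := by
    have := htest (0, ⟨1, h1A⟩, ⟨1, h1A⟩)
    rw [show T (0, ⟨1, h1A⟩, ⟨1, h1A⟩) = 1 from rfl, h1] at this
    exact this
  have t1 : ‖om l (b g)‖ ≤ s ^ 2 := by
    have := htest (1, ⟨g, hgA⟩, ⟨g, hgA⟩)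
    rw [show T (1, ⟨g, hgA⟩, ⟨g, hgA⟩) = b g from rfl, hd g hg, sub_zero] at this
    exact this
  have t2 : ∀ a ∈ A, (om l (1 - b a * star (b a))).re ≤ s ^ 2 := by
    intro a ha
    have := htest (2, ⟨a, ha⟩, ⟨a, ha⟩)
    rw [show T (2, ⟨a, ha⟩, ⟨a, ha⟩) = 1 - b a * star (b a) from rfl, map_sub ψ, h1, hc, hu,
      sub_self, sub_zero] at this
    exact (Complex.re_le_norm _).trans this
  have t3 : ∀ a ∈ A, (om l (1 - star (b a) * b a)).re ≤ s ^ 2 := by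
    intro a ha
    have := htest (3, ⟨a, ha⟩, ⟨a, ha⟩)
    rw [show T (3, ⟨a, ha⟩, ⟨a, ha⟩) = 1 - star (b a) * b a from rfl, map_sub ψ, h1, hu,
      sub_self, sub_zero] at this
    exact (Complex.re_le_norm _).trans this
  have t4 : ∀ a ∈ A, ∀ a' ∈ A, (om l (star (b (a * a') - b a * b a') *
      (b (a * a') - b a * b a'))).re ≤ s ^ 2 := by
    intro a ha a' ha'
    have := htest (4, ⟨a, ha⟩, ⟨a', ha'⟩)
    rw [show T (4, ⟨a, ha⟩, ⟨a', ha'⟩) = star (b (a * a') - b a * b a') *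
      (b (a * a') - b a * b a') from rfl, hm, sub_zero] at this
    exact (Complex.re_le_norm _).trans this
  have hconj : ∀ a ∈ A, ∀ x : H →L[ℂ] H, ‖x‖ ≤ 1 →
      ‖om l x - om l (star (b a) * x * b a)‖ ≤ s ^ 2 + s := fun a ha x hx =>
    om_conj (b a) (hb a) x hx s hs0 l hl (hcm ⟨a, ha⟩) (t2 a ha)
  -- the spectral data
  obtain ⟨m, e, f, he, hf, hom⟩ := spec l
  have hSf : ∑ i, f i ^ 2 = (om l 1).re := by
    rw [hom, re_wsum]
    refine Finset.sum_congr rfl fun i _ => ?_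
    have : ((1 : H →L[ℂ] H) (e i)) = e i := rfl
    rw [this, re_inner_self', he.1 i]
    norm_num
  have hSf1 : 1 - s ^ 2 ≤ ∑ i, f i ^ 2 := by
    rw [hSf]
    have h2 := (Complex.abs_re_le_norm (om l 1 - 1)).trans t0
    rw [Complex.sub_re, Complex.one_re, abs_le] at h2
    linarith
  -- the dilations
  have hV : ∀ a : P, ∃ V : KK H ≃ₗᵢ[ℂ] KK H, (a = 1 → V = 1) ∧
      ∀ w : H, (V (WithLp.toLp 2 (w, 0))).fst = b a w := by
    intro a
    by_cases ha : a = 1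
    · refine ⟨1, fun _ => rfl, fun w => ?_⟩
      rw [ha, hb1]
      rfl
    · obtain ⟨V, hV⟩ := exists_dilation (b a) (hb a)
      exact ⟨V, fun h => absurd h ha, hV⟩
  choose V hV1 hVf using hV
  let e' : Fin m → KK H := fun i => WithLp.toLp 2 (e i, 0)
  have hin : ∀ (w : H) (y : KK H), ⟪(WithLp.toLp 2 (w, (0 : H)) : KK H), y⟫_ℂ = ⟪w, y.fst⟫_ℂ := by
    intro w y
    rw [WithLp.prod_inner_apply]
    show ⟪w, y.fst⟫_ℂ + ⟪(0 : H), y.snd⟫_ℂ = _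
    rw [inner_zero_left, add_zero]
  have he' : Orthonormal ℂ e' := by
    rw [orthonormal_iff_ite] at he ⊢
    intro i j
    rw [← he i j]
    exact hin _ _
  obtain ⟨X, i1, i2, U, k, p1, p2, p3, p4⟩ := hilbert_reduce A V (hV1 1 rfl) e' he' f
  -- lower bound
  have hlow : 1 ≤ N2 ((U g).1 - 1) k := by
    rw [p4 g hgA]
    have h2 : ∀ i, ‖V g (e' i) - e' i‖ ^ 2 = 2 - 2 * (⟪e i, b g (e i)⟫_ℂ).re := by
      intro i
      rw [@norm_sub_sq ℂ, (V g).norm_map, he'.1 i, ← inner_conj_symm, hin, hVf]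
      have : RCLike.re ((starRingEnd ℂ) ⟪e i, b g (e i)⟫_ℂ) = (⟪e i, b g (e i)⟫_ℂ).re :=
        Complex.conj_re _
      rw [this]
      ring
    have h3 : ∑ i, f i ^ 2 * ‖V g (e' i) - e' i‖ ^ 2 = 2 * ∑ i, f i ^ 2 - 2 * (om l (b g)).re := by
      rw [hom, re_wsum, Finset.mul_sum, Finset.mul_sum, ← Finset.sum_sub_distrib]
      refine Finset.sum_congr rfl fun i _ => ?_
      rw [h2 i]
      ring
    rw [h3]
    have h4 := (Complex.re_le_norm (om l (b g))).trans t1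
    nlinarith
  refine ⟨X, i1, i2, U, k, p1, by linarith, fun a ha => ?_, fun a ha a' ha' haa => ?_⟩
  · -- commutators
    rw [p2 a ha]
    have h2 : ∀ i j, ⟪e' i, V a (e' j)⟫_ℂ = ⟪e i, b a (e j)⟫_ℂ := by
      intro i j
      show ⟪(WithLp.toLp 2 (e i, (0 : H)) : KK H), _⟫_ℂ = _
      rw [hin]
      congr 1
      exact hVf a (e j)
    simp_rw [h2]
    have h3 := e2_bound e he f hf (b a) (hb a) (s ^ 2 + s) (by
      intro x hx
      have h4 := (Complex.re_le_norm _).trans (hconj a ha x hx)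
      refine le_trans (le_of_eq ?_) h4
      congr 1
      rw [hom, hom, ← Finset.sum_sub_distrib]
      refine Finset.sum_congr rfl fun i _ => ?_
      have e1 : (star (b a) * x * b a : H →L[ℂ] H) (e i) = (b a).adjoint (x (b a (e i))) := rfl
      rw [e1, ContinuousLinearMap.adjoint_inner_right]
      ring)
    refine h3.trans ?_
    nlinarith
  · -- multiplicativity
    rw [p3 a ha a' ha' haa]
    have h2 : ∀ i, f i ^ 2 * ‖V (a * a') (e' i) - V a (V a' (e' i))‖ ^ 2 ≤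
        4 * (f i ^ 2 * ‖(b (a * a') - b a * b a') (e i)‖ ^ 2 +
          f i ^ 2 * (‖e i‖ ^ 2 - ‖b (a * a') (e i)‖ ^ 2) +
          f i ^ 2 * (‖b a' (e i)‖ ^ 2 - ‖b a (b a' (e i))‖ ^ 2) +
          f i ^ 2 * (‖e i‖ ^ 2 - ‖b a' (e i)‖ ^ 2)) := by
      intro i
      have h3 := mult_bound (V (a * a')) (V a) (V a') (b (a * a')) (b a) (b a') (hVf _) (hVf _)
        (hVf _) (e i)
      have h4 := mul_le_mul_of_nonneg_left h3 (sq_nonneg (f i))
      refine h4.trans (le_of_eq ?_)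
      have e1 : (b (a * a') - b a * b a' : H →L[ℂ] H) (e i) = b (a * a') (e i) - b a (b a' (e i)) :=
        rfl
      rw [e1]
      ring
    refine (Finset.sum_le_sum fun i _ => h2 i).trans ?_
    rw [← Finset.mul_sum, Finset.sum_add_distrib, Finset.sum_add_distrib, Finset.sum_add_distrib]
    have q1 : ∑ i, f i ^ 2 * ‖(b (a * a') - b a * b a') (e i)‖ ^ 2 ≤ s ^ 2 := by
      refine le_trans (le_of_eq ?_) (t4 a ha a' ha')
      rw [hom, re_wsum]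
      refine Finset.sum_congr rfl fun i _ => ?_
      rw [re_star_mul]
    have q2 : ∑ i, f i ^ 2 * (‖e i‖ ^ 2 - ‖b (a * a') (e i)‖ ^ 2) ≤ s ^ 2 := by
      refine le_trans (le_of_eq ?_) (t3 _ haa)
      rw [hom, re_wsum]
      refine Finset.sum_congr rfl fun i _ => ?_
      rw [re_defect']
    have q4 : ∑ i, f i ^ 2 * (‖e i‖ ^ 2 - ‖b a' (e i)‖ ^ 2) ≤ s ^ 2 := by
      refine le_trans (le_of_eq ?_) (t3 _ ha')
      rw [hom, re_wsum]
      refine Finset.sum_congr rfl fun i _ => ?_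
      rw [re_defect']
    have q3 : ∑ i, f i ^ 2 * (‖b a' (e i)‖ ^ 2 - ‖b a (b a' (e i))‖ ^ 2) ≤
        s ^ 2 + (s ^ 2 + s) := by
      have h5 := hconj a' ha' (1 - star (b a) * b a) (norm_defect' (b a) (hb a))
      have h6 : (om l (star (b a') * (1 - star (b a) * b a) * b a')).re =
          ∑ i, f i ^ 2 * (‖b a' (e i)‖ ^ 2 - ‖b a (b a' (e i))‖ ^ 2) := by
        rw [hom, re_wsum]
        refine Finset.sum_congr rfl fun i _ => ?_
        have e1 : (star (b a') * (1 - star (b a) * b a) * b a' : H →L[ℂ] H) (e i) =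
            (b a').adjoint ((1 - star (b a) * b a : H →L[ℂ] H) (b a' (e i))) := rfl
        rw [e1, ContinuousLinearMap.adjoint_inner_right, re_defect']
      rw [← h6]
      have h7 := (Complex.abs_re_le_norm _).trans h5
      rw [Complex.sub_re, abs_le] at h7
      have h8 := t3 a ha
      linarith
    nlinarith

end Pool.Agent.N83.QW
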