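import Pool.Agent.N83.QW.E2

/-!
# From operators to matrices
-/

set_option autoImplicit false

namespace Pool.Agent.N83.QW

open Matrix
open scoped ComplexOrder Matrix.Norms.L2Operator InnerProductSpace

variable {H : Type*} [NormedAddCommGroup H] [InnerProductSpace ℂ H] [CompleteSpace H]
variable {ι : Type*} [Fintype ι] [DecidableEq ι]

omit [CompleteSpace H] in
/-- the isometry from `ℂ^ι` given by an orthonormal family -/
lemma exists_iso (e : ι → H) (he : Orthonormal ℂ e) :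
    ∃ J : EuclideanSpace ℂ ι →ₗᵢ[ℂ] H, ∀ i, J (EuclideanSpace.single i 1) = e i := by
  let bs := (EuclideanSpace.basisFun ι ℂ).toBasis
  let J0 : EuclideanSpace ℂ ι →ₗ[ℂ] H := bs.constr ℂ e
  have h1 : ∀ i, J0 (bs i) = e i := fun i => bs.constr_basis ℂ e i
  have hv : Orthonormal ℂ bs := by
    have := (EuclideanSpace.basisFun ι ℂ).orthonormal
    simpa [bs] using this
  refine ⟨J0.isometryOfOrthonormal hv ?_, fun i => ?_⟩
  · have : (J0 ∘ bs) = e := funext h1
    rw [this]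
    exact he
  · have h2 := h1 i
    have h3 : bs i = EuclideanSpace.single i 1 := by simp [bs]
    rw [h3] at h2
    exact h2

/-- matrices as operators on `H` -/
noncomputable def opS (J : EuclideanSpace ℂ ι →ₗᵢ[ℂ] H) (s : Matrix ι ι ℂ) : H →L[ℂ] H :=
  (J.toContinuousLinearMap.comp (Matrix.toEuclideanCLM (n := ι) (𝕜 := ℂ) s)).comp
    J.toContinuousLinearMap.adjoint

lemma norm_opS_le (J : EuclideanSpace ℂ ι →ₗᵢ[ℂ] H) (s : Matrix ι ι ℂ) : ‖opS J s‖ ≤ ‖s‖ := by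
  have h1 : ‖J.toContinuousLinearMap‖ ≤ 1 := J.norm_toContinuousLinearMap_le
  have h2 : ‖J.toContinuousLinearMap.adjoint‖ ≤ 1 := by
    rw [ContinuousLinearMap.adjoint.norm_map]
    exact h1
  calc ‖opS J s‖ ≤ ‖J.toContinuousLinearMap.comp (Matrix.toEuclideanCLM (n := ι) (𝕜 := ℂ) s)‖ *
        ‖J.toContinuousLinearMap.adjoint‖ := ContinuousLinearMap.opNorm_comp_le _ _
    _ ≤ (‖J.toContinuousLinearMap‖ * ‖Matrix.toEuclideanCLM (n := ι) (𝕜 := ℂ) s‖) *
        ‖J.toContinuousLinearMap.adjoint‖ := by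
          gcongr
          exact ContinuousLinearMap.opNorm_comp_le _ _
    _ ≤ (1 * ‖Matrix.toEuclideanCLM (n := ι) (𝕜 := ℂ) s‖) * 1 := by gcongr
    _ = ‖s‖ := by rw [one_mul, mul_one, Matrix.l2_opNorm_def]; rfl

lemma adj_apply (J : EuclideanSpace ℂ ι →ₗᵢ[ℂ] H) (e : ι → H)
    (hJ : ∀ i, J (EuclideanSpace.single i 1) = e i) (w : H) (i : ι) :
    J.toContinuousLinearMap.adjoint w i = ⟪e i, w⟫_ℂ := by
  have h := ContinuousLinearMap.adjoint_inner_right J.toContinuousLinearMap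
    (EuclideanSpace.single i (1 : ℂ)) w
  rw [EuclideanSpace.inner_single_left, map_one, one_mul] at h
  rw [h]
  show ⟪J (EuclideanSpace.single i 1), w⟫_ℂ = _
  rw [hJ]

lemma inner_opS (J : EuclideanSpace ℂ ι →ₗᵢ[ℂ] H) (e : ι → H)
    (hJ : ∀ i, J (EuclideanSpace.single i 1) = e i) (s : Matrix ι ι ℂ) (v w : H) :
    ⟪v, opS J s w⟫_ℂ = ∑ i, ∑ j, ⟪v, e i⟫_ℂ * s i j * ⟪e j, w⟫_ℂ := by
  have h1 : ⟪v, opS J s w⟫_ℂ = ⟪J.toContinuousLinearMap.adjoint v,
      Matrix.toEuclideanCLM (n := ι) (𝕜 := ℂ) s (J.toContinuousLinearMap.adjoint w)⟫_ℂ := by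
    rw [ContinuousLinearMap.adjoint_inner_left]
    rfl
  rw [h1, PiLp.inner_apply]
  refine Finset.sum_congr rfl fun i _ => ?_
  rw [adj_apply J e hJ]
  have h2 : (Matrix.toEuclideanCLM (n := ι) (𝕜 := ℂ) s (J.toContinuousLinearMap.adjoint w)) i =
      ∑ j, s i j * ⟪e j, w⟫_ℂ := by
    have h3 : (Matrix.toEuclideanCLM (n := ι) (𝕜 := ℂ) s (J.toContinuousLinearMap.adjoint w)) i =
        (s *ᵥ (J.toContinuousLinearMap.adjoint w).ofLp) i := rfl
    rw [h3, mulVec, dotProduct]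
    refine Finset.sum_congr rfl fun j _ => ?_
    rw [← adj_apply J e hJ w j]
  rw [h2, RCLike.inner_apply, inner_conj_symm, Finset.sum_mul]
  refine Finset.sum_congr rfl fun j _ => ?_
  ring

/-- The commutator of a contraction with the root of a density. -/
theorem e2_bound (e : ι → H) (he : Orthonormal ℂ e) (f : ι → ℝ) (hf : ∀ i, 0 ≤ f i)
    (b : H →L[ℂ] H) (hb : ‖b‖ ≤ 1) (δ : ℝ)
    (h : ∀ x : H →L[ℂ] H, ‖x‖ ≤ 1 →
      (∑ i, (f i : ℂ) ^ 2 * (⟪e i, x (e i)⟫_ℂ - ⟪b (e i), x (b (e i))⟫_ℂ)).re ≤ δ) :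
    2 * ∑ i, f i ^ 2 - 2 * ∑ i, ∑ j, ‖⟪e i, b (e j)⟫_ℂ‖ ^ 2 * (f i * f j) ≤ 4 * δ := by
  obtain ⟨J, hJ⟩ := exists_iso e he
  let B : Matrix ι ι ℂ := fun i j => ⟪e i, b (e j)⟫_ℂ
  have hB : (1 - Bᴴ * B).PosSemidef := by
    refine Matrix.PosSemidef.of_dotProduct_mulVec_nonneg ?_ fun c => ?_
    · exact (isHermitian_one).sub (isHermitian_conjTranspose_mul_self B)
    · let w : H := ∑ j, c j • e j
      have h1 : (B *ᵥ c) = fun i => ⟪e i, b w⟫_ℂ := by
        funext i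
        show (B *ᵥ c) i = _
        rw [mulVec, dotProduct]
        show _ = ⟪e i, b (∑ j, c j • e j)⟫_ℂ
        rw [map_sum, inner_sum]
        refine Finset.sum_congr rfl fun j _ => ?_
        rw [map_smul, inner_smul_right]
        show ⟪e i, b (e j)⟫_ℂ * c j = _
        ring
      have h2 : star c ⬝ᵥ ((1 - Bᴴ * B) *ᵥ c) =
          ((∑ j, ‖c j‖ ^ 2 - ∑ i, ‖⟪e i, b w⟫_ℂ‖ ^ 2 : ℝ) : ℂ) := by
        rw [sub_mulVec, one_mulVec, dotProduct_sub, ← mulVec_mulVec, dotProduct_mulVec,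
          vecMul_conjTranspose, star_star, h1]
        push_cast
        rw [dotProduct, dotProduct]
        congr 1
        · refine Finset.sum_congr rfl fun j _ => ?_
          rw [Pi.star_apply, Complex.star_def, Complex.conj_mul']
        · refine Finset.sum_congr rfl fun j _ => ?_
          rw [Pi.star_apply, Complex.star_def, Complex.conj_mul']
      rw [h2]
      have h3 : ∑ i, ‖⟪e i, b w⟫_ℂ‖ ^ 2 ≤ ‖b w‖ ^ 2 := he.sum_inner_products_le (b w)
      have h4 : ‖b w‖ ^ 2 ≤ ‖w‖ ^ 2 := by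
        have := b.le_opNorm w
        have h5 : ‖b w‖ ≤ ‖w‖ := this.trans (by nlinarith [norm_nonneg w])
        exact pow_le_pow_left₀ (norm_nonneg _) h5 2
      have h6 : ‖w‖ ^ 2 = ∑ j, ‖c j‖ ^ 2 := by
        have h7 := he.inner_sum c c Finset.univ
        have h9 : ((‖w‖ ^ 2 : ℝ) : ℂ) = ((∑ j, ‖c j‖ ^ 2 : ℝ) : ℂ) := by
          push_cast
          have h10 : ⟪w, w⟫_ℂ = ((‖w‖ : ℝ) : ℂ) ^ 2 := inner_self_eq_norm_sq_to_K w
          rw [← h10]
          refine h7.trans ?_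
          refine Finset.sum_congr rfl fun j _ => ?_
          rw [Complex.conj_mul']
        exact_mod_cast h9
      have h8 : 0 ≤ ∑ j, ‖c j‖ ^ 2 - ∑ i, ‖⟪e i, b w⟫_ℂ‖ ^ 2 := by linarith
      exact_mod_cast h8
  refine matrix_bound f hf B hB δ fun s hs => ?_
  have h1 := h (opS J s) ((norm_opS_le J s).trans hs)
  refine le_trans (le_of_eq ?_) h1
  congr 1
  rw [sub_mul, trace_sub]
  simp_rw [mul_sub]
  rw [Finset.sum_sub_distrib]
  congr 1
  · rw [diagonal_mul_diagonal, trace]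
    refine Finset.sum_congr rfl fun i _ => ?_
    rw [diag_apply, diagonal_mul, inner_opS J e hJ]
    have h2 : ∑ k, ∑ l, ⟪e i, e k⟫_ℂ * s k l * ⟪e l, e i⟫_ℂ = s i i := by
      rw [Finset.sum_eq_single i]
      · rw [Finset.sum_eq_single i]
        · rw [orthonormal_iff_ite.1 he i i, if_pos rfl]
          ring
        · intro l _ hl
          rw [orthonormal_iff_ite.1 he l i, if_neg hl, mul_zero]
        · simp
      · intro k _ hk
        refine Finset.sum_eq_zero fun l _ => ?_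
        rw [orthonormal_iff_ite.1 he i k, if_neg (Ne.symm hk), zero_mul, zero_mul]
      · simp
    rw [h2]
    ring
  · rw [trace]
    have h2 : ∀ l, (B * ((diagonal fun i => (f i : ℂ)) * (diagonal fun i => (f i : ℂ))) * Bᴴ *
        s) l l = ∑ i, ∑ k, (f i : ℂ) ^ 2 * (⟪b (e i), e k⟫_ℂ * s k l * ⟪e l, b (e i)⟫_ℂ) := by
      intro l
      rw [mul_apply, Finset.sum_comm]
      refine Finset.sum_congr rfl fun k _ => ?_
      rw [mul_apply, Finset.sum_mul]
      refine Finset.sum_congr rfl fun i _ => ?_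
      rw [diagonal_mul_diagonal, mul_diagonal, conjTranspose_apply, Complex.star_def]
      show ⟪e l, b (e i)⟫_ℂ * ((f i : ℂ) * f i) * (starRingEnd ℂ) ⟪e k, b (e i)⟫_ℂ * s k l = _
      rw [inner_conj_symm]
      ring
    simp_rw [diag_apply, h2]
    rw [Finset.sum_comm]
    refine Finset.sum_congr rfl fun i _ => ?_
    rw [inner_opS J e hJ, Finset.mul_sum, Finset.sum_comm]
    refine Finset.sum_congr rfl fun k _ => ?_
    rw [Finset.mul_sum]

end Pool.Agent.N83.QW
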