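import Mathlib

/-!
# The Powers-Størmer inequality for matrices
-/

set_option autoImplicit false

namespace Pool.Agent.N83.QW

open Matrix
open scoped ComplexOrder Matrix.Norms.L2Operator

variable {n : Type*} [Fintype n] [DecidableEq n]

/-- diagonal part of the computation -/
lemma ps_diag (A B : Matrix n n ℂ) (hA : A.PosSemidef) (hB : B.PosSemidef) (lam : n → ℝ)
    (h : A - B = diagonal fun i => (lam i : ℂ)) :
    (trace ((A - B) * (A - B))).re ≤
      (trace ((A * A - B * B) * diagonal fun i => ((SignType.sign (lam i) : ℝ) : ℂ))).re := by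
  have hAe : A = B + diagonal fun i => (lam i : ℂ) := by rw [← h]; abel
  have h1 : ∀ i, (A * A - B * B) i i = (lam i : ℂ) * (A i i + B i i) := by
    intro i
    have e : A * A - B * B = B * (diagonal fun i => (lam i : ℂ)) +
        (diagonal fun i => (lam i : ℂ)) * B +
        (diagonal fun i => (lam i : ℂ)) * (diagonal fun i => (lam i : ℂ)) := by
      rw [hAe]
      noncomm_ring
    rw [e, Matrix.add_apply, Matrix.add_apply, mul_diagonal, diagonal_mul, diagonal_mul_diagonal,
      diagonal_apply_eq, hAe, Matrix.add_apply, diagonal_apply_eq]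
    ring
  rw [trace, trace, Complex.re_sum, Complex.re_sum]
  refine Finset.sum_le_sum fun i _ => ?_
  rw [diag_apply, diag_apply, h, diagonal_mul_diagonal, diagonal_apply_eq, mul_diagonal, h1]
  have hAi : 0 ≤ (A i i).re := (Complex.nonneg_iff.1 (hA.diag_nonneg (i := i))).1
  have hBi : 0 ≤ (B i i).re := (Complex.nonneg_iff.1 (hB.diag_nonneg (i := i))).1
  have hd : (A i i).re = (B i i).re + lam i := by
    rw [hAe, Matrix.add_apply, diagonal_apply_eq]
    simp
  have e1 : ((lam i : ℂ) * (lam i : ℂ)).re = lam i ^ 2 := by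
    rw [← Complex.ofReal_mul, Complex.ofReal_re, sq]
  have e2 : ((lam i : ℂ) * (A i i + B i i) * ((SignType.sign (lam i) : ℝ) : ℂ)).re =
      |lam i| * ((A i i).re + (B i i).re) := by
    have : (lam i : ℂ) * (A i i + B i i) * ((SignType.sign (lam i) : ℝ) : ℂ) =
        ((lam i * (SignType.sign (lam i) : ℝ) : ℝ) : ℂ) * (A i i + B i i) := by
      push_cast
      ring
    rw [this, Complex.re_ofReal_mul, self_mul_sign, Complex.add_re]
  rw [e1, e2]
  have h3 : |lam i| ≤ (A i i).re + (B i i).re := by
    rw [abs_le]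
    constructor <;> linarith
  calc lam i ^ 2 = |lam i| * |lam i| := by rw [abs_mul_abs_self, sq]
    _ ≤ _ := mul_le_mul_of_nonneg_left h3 (abs_nonneg _)

/-- **Powers-Størmer**: `Tr (A - B)² ≤ Tr ((A² - B²) s)` for a self-adjoint contraction `s`. -/
theorem powers_stormer (A B : Matrix n n ℂ) (hA : A.PosSemidef) (hB : B.PosSemidef) :
    ∃ s : Matrix n n ℂ, ‖s‖ ≤ 1 ∧ (1 - s).PosSemidef ∧
      (trace ((A - B) * (A - B))).re ≤ (trace ((A * A - B * B) * s)).re := by
  have hD : (A - B).IsHermitian := hA.isHermitian.sub hB.isHermitian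
  set V : unitaryGroup n ℂ := hD.eigenvectorUnitary with hV
  set lam : n → ℝ := hD.eigenvalues with hlam
  have hVV : V.1 * star V.1 = 1 := mem_unitaryGroup_iff.1 V.2
  have hVV' : star V.1 * V.1 = 1 := UnitaryGroup.star_mul_self V
  have hdiag : star V.1 * (A - B) * V.1 = diagonal (fun i => (lam i : ℂ)) := by
    have h1 := hD.conjStarAlgAut_star_eigenvectorUnitary
    rw [Unitary.conjStarAlgAut_star_apply] at h1
    exact h1
  let S : Matrix n n ℂ := diagonal fun i => ((SignType.sign (lam i) : ℝ) : ℂ)
  have hconj : ∀ M N : Matrix n n ℂ, star V.1 * M * V.1 * (star V.1 * N * V.1) =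
      star V.1 * (M * N) * V.1 := by
    intro M N
    calc star V.1 * M * V.1 * (star V.1 * N * V.1) = star V.1 * M * (V.1 * star V.1) * N * V.1 := by
          noncomm_ring
      _ = star V.1 * (M * N) * V.1 := by rw [hVV]; noncomm_ring
  have htr : ∀ M : Matrix n n ℂ, trace (star V.1 * M * V.1) = trace M := by
    intro M
    rw [trace_mul_cycle, hVV, Matrix.one_mul]
  refine ⟨V.1 * S * star V.1, ?_, ?_, ?_⟩
  · have hVn : ‖V.1‖ ≤ 1 := by
      have h := CStarRing.norm_star_mul_self (x := V.1)
      rw [hVV'] at h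
      have h2 : ‖(1 : Matrix n n ℂ)‖ ≤ 1 := by
        have h := CStarRing.norm_star_mul_self (x := (1 : Matrix n n ℂ))
        rw [star_one, one_mul] at h
        nlinarith [norm_nonneg (1 : Matrix n n ℂ)]
      nlinarith [norm_nonneg V.1]
    have hSn : ‖S‖ ≤ 1 := by
      show ‖diagonal _‖ ≤ 1
      rw [Matrix.l2_opNorm_diagonal, pi_norm_le_iff_of_nonneg zero_le_one]
      intro i
      rw [Complex.norm_real, Real.norm_eq_abs]
      rcases lt_trichotomy (lam i) 0 with h | h | h
      · rw [sign_neg h]; simp
      · rw [h, sign_zero]; simp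
      · rw [sign_pos h]; simp
    calc ‖V.1 * S * star V.1‖ ≤ ‖V.1‖ * ‖S‖ * ‖star V.1‖ :=
          (norm_mul_le _ _).trans (mul_le_mul_of_nonneg_right (norm_mul_le _ _) (norm_nonneg _))
      _ ≤ 1 * 1 * 1 := by
          rw [norm_star]
          gcongr
      _ = 1 := by norm_num
  · have h1 : (1 - S).PosSemidef := by
      have e : 1 - S = diagonal fun i => (1 - ((SignType.sign (lam i) : ℝ) : ℂ)) := by
        rw [← diagonal_one]
        exact diagonal_sub _ _
      rw [e, posSemidef_diagonal_iff]
      intro i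
      rcases lt_trichotomy (lam i) 0 with h | h | h
      · rw [sign_neg h]; simp; norm_num
      · rw [h, sign_zero]; simp
      · rw [sign_pos h]; simp
    have h2 := h1.mul_mul_conjTranspose_same V.1
    have e2 : V.1 * (1 - S) * V.1ᴴ = 1 - V.1 * S * star V.1 := by
      change V.1 * (1 - S) * star V.1 = _
      rw [mul_sub, sub_mul, mul_one, hVV]
    rw [e2] at h2
    exact h2
  · have hA' : (star V.1 * A * V.1).PosSemidef := by
      have := hA.conjTranspose_mul_mul_same V.1
      exact this
    have hB' : (star V.1 * B * V.1).PosSemidef := by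
      have := hB.conjTranspose_mul_mul_same V.1
      exact this
    have hsub : star V.1 * A * V.1 - star V.1 * B * V.1 = star V.1 * (A - B) * V.1 := by
      noncomm_ring
    have h := ps_diag (star V.1 * A * V.1) (star V.1 * B * V.1) hA' hB' lam (by rw [hsub, hdiag])
    rw [hsub, hconj, hconj, hconj, htr] at h
    have e : trace ((star V.1 * (A * A) * V.1 - star V.1 * (B * B) * V.1) * S) =
        trace ((A * A - B * B) * (V.1 * S * star V.1)) := by
      have e1 : (star V.1 * (A * A) * V.1 - star V.1 * (B * B) * V.1) * S =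
          star V.1 * ((A * A - B * B) * V.1 * S) := by noncomm_ring
      rw [e1, trace_mul_comm]
      congr 1
      noncomm_ring
    rw [← e]
    exact h

end Pool.Agent.N83.QW
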